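import Pool.Agent.H65I.Final

/-! MP_d0d08e_co, Q1: all `H` such that clique-width is bounded on the `H`-induced-topological-minor-free
graphs. -/

open Pool.Agent.H175R2 Pool.Agent.H65I

/-- Full answer to Q1: for a finite graph `H`, clique-width is bounded on the class of (finite)
`H`-induced-topological-minor-free graphs if and only if `H` is an induced subgraph of `P₄`, of the
paw or of the diamond. -/
theorem Pool.Agent.Results.MP_d0d08e_co.Classification.result {W : Type} [Finite W]
    (H : SimpleGraph W) :
    BddCwITM H ↔ (Nonempty (H ↪g SimpleGraph.pathGraph 4) ∨ Nonempty (H ↪g paw) ∨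
      Nonempty (H ↪g diamond)) :=
  main H
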